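import Pool.Agent.Work.MP_9999b5_ms_helper74.Var

/-!
# MP_9999b5_co: block Cheb (Chebyshev)
-/

set_option autoImplicit false

namespace Pool.Agent.Work.MaxSums.helper74Cheb

open Finset

theorem holds (hLin : SumLin) (hSq : SumSq) : Cheb := by
  intro ι _ A j g r hA hj hr
  refine le_trans ?_ (helper74Var.var hLin hSq ι A j g hA hj)
  rw [← nsmul_eq_mul, ← Finset.sum_const]
  refine (Finset.sum_le_sum fun S hS => ?_).trans
    (Finset.sum_le_sum_of_subset_of_nonneg (Finset.filter_subset _ _) fun _ _ _ => sq_nonneg _)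
  have h := (Finset.mem_filter.1 hS).2
  calc r ^ 2 ≤ |∑ i ∈ S, g i - (j : ℝ) / A.card * ∑ i ∈ A, g i| ^ 2 := by
        exact pow_le_pow_left₀ hr.le h 2
    _ = (∑ i ∈ S, g i - (j : ℝ) / A.card * ∑ i ∈ A, g i) ^ 2 := sq_abs _

end Pool.Agent.Work.MaxSums.helper74Cheb
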