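import Pool.Agent.Work.MP_9999b5_ms.Defs

/-!
# MP_9999b5_co: block Clean (numbers of subsets avoiding few elements)
-/

set_option autoImplicit false

namespace Pool.Agent.Work.MaxSums.helper74Clean

open Finset

theorem step (M o j : ℕ) (h : o + 1 ≤ M) :
    M * ((M - o).choose j) ≤ M * ((M - (o + 1)).choose j) + j * M.choose j := by
  obtain ⟨N, rfl⟩ : ∃ N, M = N + 1 := ⟨M - 1, by omega⟩
  cases j with
  | zero => simp
  | succ j =>
    have h1 : N + 1 - o = (N - o) + 1 := by omega
    have h2 : N + 1 - (o + 1) = N - o := by omega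
    rw [h1, h2, Nat.choose_succ_succ]
    have h3 : (N + 1) * N.choose j = (N + 1).choose (j + 1) * (j + 1) :=
      Nat.add_one_mul_choose_eq N j
    have h4 : (N - o).choose j ≤ N.choose j := Nat.choose_le_choose j (Nat.sub_le N o)
    have h5 : (N + 1) * (N - o).choose j ≤ (N + 1) * N.choose j := Nat.mul_le_mul_left _ h4
    rw [h3, mul_comm ((N + 1).choose (j + 1))] at h5
    have h6 : j.succ = j + 1 := rfl
    rw [h6, mul_add]
    omega

theorem holds : Clean := by
  intro M o j
  induction o with
  | zero =>
    intro _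
    simp
  | succ o ih =>
    intro h
    have h1 := ih (by omega)
    have h2 : (M : ℝ) * ((M - o).choose j : ℝ)
        ≤ (M : ℝ) * ((M - (o + 1)).choose j : ℝ) + (j : ℝ) * (M.choose j : ℝ) := by
      exact_mod_cast step M o j h
    push_cast
    nlinarith [h1, h2]

end Pool.Agent.Work.MaxSums.helper74Clean
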