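import Pool.Agent.Work.MP_9999b5_ms.Defs

/-!
# MP_9999b5_co: block MostClean
-/

set_option autoImplicit false

namespace Pool.Agent.Work.MaxSums.helper74MostClean

open Finset

theorem holds : MostClean := by
  intro ι _ R O x k hsub hord hk hout
  set B : Finset ι := R \ O with hB
  set P : Finset (Finset ι) := (R.powersetCard k).filter (fun S => 0 < ∑ i ∈ S, x i) with hP
  set Pc : Finset (Finset ι) := (B.powersetCard k).filter (fun S => 0 < ∑ i ∈ S, x i) with hPc
  set X : Finset (Σ _ : Finset ι, ι × ι) := P.sigma (fun S => (S ∩ O) ×ˢ (B \ S)) with hX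
  set Y : Finset (Σ _ : Finset ι, ι × ι) := P.sigma (fun S => S ×ˢ O) with hY
  have memP : ∀ S, S ∈ P ↔ (S ⊆ R ∧ S.card = k) ∧ 0 < ∑ i ∈ S, x i := by
    intro S
    rw [hP, Finset.mem_filter, Finset.mem_powersetCard]
  -- the injection
  have hcardle : X.card ≤ Y.card := by
    refine Finset.card_le_card_of_injOn
      (fun t => ⟨insert t.2.2 (t.1.erase t.2.1), (t.2.2, t.2.1)⟩) ?_ ?_
    · rintro ⟨S, o, w⟩ ht
      rw [Finset.mem_coe, hX, Finset.mem_sigma, Finset.mem_product, Finset.mem_inter,
        Finset.mem_sdiff] at ht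
      obtain ⟨hS, ⟨hoS, hoO⟩, hwB, hwS⟩ := ht
      simp only at hS hoS hoO hwB hwS
      rw [memP] at hS
      rw [Finset.mem_coe, hY, Finset.mem_sigma, Finset.mem_product]
      refine ⟨?_, Finset.mem_insert_self _ _, hoO⟩
      simp only
      rw [memP]
      have hwe : w ∉ S.erase o := fun h => hwS (Finset.mem_of_mem_erase h)
      refine ⟨⟨?_, ?_⟩, ?_⟩
      · intro i hi
        rcases Finset.mem_insert.1 hi with rfl | hi
        · exact (Finset.mem_sdiff.1 hwB).1
        · exact hS.1.1 (Finset.mem_of_mem_erase hi)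
      · rw [Finset.card_insert_of_notMem hwe, Finset.card_erase_of_mem hoS, hS.1.2]
        have : 0 < S.card := Finset.card_pos.2 ⟨o, hoS⟩
        omega
      · rw [Finset.sum_insert hwe]
        have h1 := Finset.add_sum_erase S x hoS
        have h2 := hord o hoO w hwB
        linarith [hS.2]
    · rintro ⟨S, o, w⟩ ht ⟨S', o', w'⟩ ht' heq
      rw [Finset.mem_coe, hX, Finset.mem_sigma, Finset.mem_product, Finset.mem_inter,
        Finset.mem_sdiff] at ht ht'
      obtain ⟨-, ⟨hoS, -⟩, -, hwS⟩ := ht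
      obtain ⟨-, ⟨hoS', -⟩, -, hwS'⟩ := ht'
      simp only at hoS hwS hoS' hwS'
      simp only [Sigma.mk.injEq, heq_eq_eq, Prod.mk.injEq] at heq
      obtain ⟨h1, rfl, rfl⟩ := heq
      have h2 : ∀ T : Finset ι, o ∈ T → w ∉ T →
          insert o ((insert w (T.erase o)).erase w) = T := by
        intro T hoT hwT
        rw [Finset.erase_insert (fun h => hwT (Finset.mem_of_mem_erase h)),
          Finset.insert_erase hoT]
      have h3 : S = S' := by
        rw [← h2 S hoS hwS, ← h2 S' hoS' hwS', h1]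
      rw [h3]
  have hYc : Y.card = P.card * (k * O.card) := by
    rw [hY, Finset.card_sigma, Finset.sum_congr rfl (g := fun _ => k * O.card)]
    · rw [Finset.sum_const, smul_eq_mul]
    · intro S hS
      rw [Finset.card_product, ((memP S).1 hS).1.2]
  have hXc : (P \ Pc).card * (B.card - k) ≤ X.card := by
    rw [hX, Finset.card_sigma, ← smul_eq_mul, ← Finset.sum_const]
    refine (Finset.sum_le_sum fun S hS => ?_).trans
      (Finset.sum_le_sum_of_subset (Finset.sdiff_subset (s := P) (t := Pc)))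
    rw [Finset.mem_sdiff, memP, hPc, Finset.mem_filter, Finset.mem_powersetCard] at hS
    obtain ⟨⟨⟨hSR, hSk⟩, hpos⟩, hn⟩ := hS
    have h1 : ¬ S ⊆ B := fun h => hn ⟨⟨h, hSk⟩, hpos⟩
    obtain ⟨o, hoS, hoB⟩ := Finset.not_subset.1 h1
    have hoO : o ∈ O := by
      by_contra h
      exact hoB (Finset.mem_sdiff.2 ⟨hSR hoS, h⟩)
    have h2 : 1 ≤ (S ∩ O).card := Finset.card_pos.2 ⟨o, Finset.mem_inter.2 ⟨hoS, hoO⟩⟩
    have h3 : B.card - k ≤ (B \ S).card := by
      have := Finset.le_card_sdiff S B
      rw [hSk] at this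
      exact this
    rw [Finset.card_product]
    calc B.card - k = 1 * (B.card - k) := (one_mul _).symm
      _ ≤ _ := Nat.mul_le_mul h2 h3
  have hPcP : Pc ⊆ P := by
    rw [hP, hPc]
    exact Finset.filter_subset_filter _ (Finset.powersetCard_mono Finset.sdiff_subset)
  have hsplit : (P \ Pc).card + Pc.card = P.card := Finset.card_sdiff_add_card_eq_card hPcP
  have hposR : pos x R k = P.card := rfl
  have hposB : pos x B k = Pc.card := rfl
  rw [hposR, hposB]
  have h1 : (P \ Pc).card * (B.card - k) ≤ P.card * (k * O.card) :=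
    hXc.trans (hcardle.trans hYc.le)
  have h2 : 10 * ((P \ Pc).card * (B.card - k)) ≤ P.card * (3 * (B.card - k)) :=
    calc 10 * ((P \ Pc).card * (B.card - k)) ≤ 10 * (P.card * (k * O.card)) :=
          Nat.mul_le_mul_left _ h1
      _ = P.card * (10 * (k * O.card)) := by ring
      _ ≤ _ := Nat.mul_le_mul_left _ hout
  have h3 : 10 * (P \ Pc).card ≤ 3 * P.card := by
    have h4 : 0 < B.card - k := by omega
    have h5 : (10 * (P \ Pc).card) * (B.card - k) ≤ (3 * P.card) * (B.card - k) := by
      calc (10 * (P \ Pc).card) * (B.card - k) = 10 * ((P \ Pc).card * (B.card - k)) := by ring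
        _ ≤ P.card * (3 * (B.card - k)) := h2
        _ = _ := by ring
    exact Nat.le_of_mul_le_mul_right h5 h4
  omega

end Pool.Agent.Work.MaxSums.helper74MostClean
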