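import Pool.Agent.Work.MP_9999b5_ms_helper74.Var

/-!
# MP_9999b5_co: block PosProb (many subsets have sum greater than `-c`)
-/

set_option autoImplicit false

namespace Pool.Agent.Work.MaxSums.helper74PosProb

open Finset

theorem holds (hLin : SumLin) (hSq : SumSq) (hPZ : PZ) : PosProb := by
  intro ι _ A j g a c e v hA hj he hv hmean hvar
  have hm : (0 : ℝ) < A.card := by exact_mod_cast hA
  have hN : (0 : ℝ) < (A.card.choose j : ℝ) := by exact_mod_cast Nat.choose_pos hj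
  have hcard : ((A.powersetCard j).card : ℝ) = (A.card.choose j : ℝ) := by
    rw [Finset.card_powersetCard]
  set m : ℝ := (A.card : ℝ) with hmdef
  set N : ℝ := (A.card.choose j : ℝ) with hNdef
  set E : ℝ := c + (j : ℝ) / m * ∑ i ∈ A, g i with hE
  have hV := helper74Var.var hLin hSq ι A j (fun i => g i - a) hA hj
  have hlin := hLin ι A j g
  -- the mean
  have hmeanY : ∑ S ∈ A.powersetCard j, (c + ∑ i ∈ S, g i) = N * E := by
    rw [Finset.sum_add_distrib, Finset.sum_const, nsmul_eq_mul, hcard, hE]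
    field_simp
    linarith [hlin]
  have hY : ∀ S ∈ A.powersetCard j, (c + ∑ i ∈ S, g i)
      = E + (∑ i ∈ S, (g i - a) - (j : ℝ) / m * ∑ i ∈ A, (g i - a)) := by
    intro S hS
    rw [Finset.mem_powersetCard] at hS
    rw [Finset.sum_sub_distrib, Finset.sum_sub_distrib, Finset.sum_const, Finset.sum_const,
      hS.2, nsmul_eq_mul, nsmul_eq_mul, hE, ← hmdef]
    field_simp
    ring
  have hsqY : ∑ S ∈ A.powersetCard j, (c + ∑ i ∈ S, g i) ^ 2 ≤ N * (E ^ 2 + v) := by
    have h1 : ∑ S ∈ A.powersetCard j, (c + ∑ i ∈ S, g i) ^ 2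
        = 2 * E * ∑ S ∈ A.powersetCard j, (c + ∑ i ∈ S, g i) - N * E ^ 2
          + ∑ S ∈ A.powersetCard j,
            (∑ i ∈ S, (g i - a) - (j : ℝ) / m * ∑ i ∈ A, (g i - a)) ^ 2 := by
      have h2 : ∑ S ∈ A.powersetCard j, (c + ∑ i ∈ S, g i) ^ 2
          = ∑ S ∈ A.powersetCard j, (2 * E * (c + ∑ i ∈ S, g i) - E ^ 2
            + (∑ i ∈ S, (g i - a) - (j : ℝ) / m * ∑ i ∈ A, (g i - a)) ^ 2) := by
        refine Finset.sum_congr rfl fun S hS => ?_
        have h3 : (∑ i ∈ S, (g i - a) - (j : ℝ) / m * ∑ i ∈ A, (g i - a))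
            = (c + ∑ i ∈ S, g i) - E := by
          linarith [hY S hS]
        rw [h3]
        ring
      rw [h2, Finset.sum_add_distrib, Finset.sum_sub_distrib, ← Finset.mul_sum,
        Finset.sum_const, nsmul_eq_mul, hcard]
    rw [h1, hmeanY]
    have h4 : N * ((j : ℝ) / m * ∑ i ∈ A, (g i - a) ^ 2) ≤ N * v :=
      mul_le_mul_of_nonneg_left hvar hN.le
    have h5 : 2 * E * (N * E) - N * E ^ 2 = N * E ^ 2 := by ring
    rw [h5]
    have h6 := hV.trans h4
    linarith [h6]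
  have hEe : e ≤ E := hmean
  have hE0 : 0 < E := lt_of_lt_of_le he hEe
  have hpz := hPZ (Finset ι) (A.powersetCard j) (fun S => c + ∑ i ∈ S, g i)
    (by rw [hmeanY]; positivity)
  set P : ℝ := (((A.powersetCard j).filter (fun S => 0 < c + ∑ i ∈ S, g i)).card : ℝ) with hP
  have hP0 : 0 ≤ P := Nat.cast_nonneg _
  rw [hmeanY] at hpz
  have h1 : (N * E) ^ 2 ≤ P * (N * (E ^ 2 + v)) :=
    hpz.trans (mul_le_mul_of_nonneg_left hsqY hP0)
  have h2 : N * E ^ 2 ≤ P * (E ^ 2 + v) := by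
    have h3 : N * (N * E ^ 2) ≤ N * (P * (E ^ 2 + v)) := by nlinarith [h1]
    exact le_of_mul_le_mul_left h3 hN
  have hEv : 0 < E ^ 2 + v := by positivity
  have hev : 0 < e ^ 2 + v := by positivity
  have h4 : e ^ 2 / (e ^ 2 + v) ≤ E ^ 2 / (E ^ 2 + v) := by
    rw [div_le_div_iff₀ hev hEv]
    have : e ^ 2 ≤ E ^ 2 := by nlinarith
    nlinarith
  have h5 : E ^ 2 / (E ^ 2 + v) * N ≤ P := by
    rw [div_mul_eq_mul_div, div_le_iff₀ hEv]
    linarith
  exact (mul_le_mul_of_nonneg_right h4 hN.le).trans h5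

end Pool.Agent.Work.MaxSums.helper74PosProb
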