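import Pool.Agent.Work.MP_9999b5_ms.Defs

/-!
# MP_9999b5_co: block StarDeg
-/

set_option autoImplicit false

namespace Pool.Agent.Work.MaxSums.helper74StarDeg

open Finset

theorem above_mono {ι : Type} [DecidableEq ι] (x : ι → ℝ) {B R : Finset ι} (h : B ⊆ R) (j : ℕ) :
    above x B j ≤ above x R j :=
  Finset.card_le_card (Finset.filter_subset_filter _ (Finset.powersetCard_mono h))

theorem above_eq {ι : Type} [DecidableEq ι] (x : ι → ℝ) (B : Finset ι) (j : ℕ) :
    (above x B j : ℝ)
      = (((B.powersetCard j).filter (fun S => 0 < 1 + ∑ i ∈ S, x i)).card : ℝ) := by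
  unfold above
  congr 2
  apply Finset.filter_congr
  intro S _
  constructor <;> intro h <;> linarith

theorem holds (hPos : PosProb) (hClean : Clean) : StarDeg := by
  intro ι _ R O x k hT
  obtain ⟨hk, hsub, -, -, hge, -, hsq, hcard, hout⟩ := hT
  set B : Finset ι := R \ O with hB
  have hBR : B ⊆ R := Finset.sdiff_subset
  have hBc : B.card = R.card - O.card := Finset.card_sdiff_of_subset hsub
  have hOR : O.card ≤ R.card := Finset.card_le_card hsub
  have hkR : (2 : ℝ) ≤ k := by exact_mod_cast hk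
  have hm : (20 : ℝ) * k ≤ B.card := by exact_mod_cast hcard
  have hm0 : (0 : ℝ) < B.card := by linarith
  have hj : ((k - 1 : ℕ) : ℝ) = (k : ℝ) - 1 := by
    rw [Nat.cast_sub (by omega), Nat.cast_one]
  have hp := hPos ι B (k - 1) x 0 1 (19 / 20) 37 (by omega) (by omega) (by norm_num)
    (by norm_num)
    (by
      rw [hj]
      have h1 : ((k : ℝ) - 1) / B.card ≤ 1 / 20 := by
        rw [div_le_iff₀ hm0]
        linarith
      have h0 : 0 ≤ ((k : ℝ) - 1) / B.card := div_nonneg (by linarith) hm0.le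
      nlinarith [hge])
    (by
      rw [hj]
      simp only [sub_zero]
      rw [div_mul_eq_mul_div, div_le_iff₀ hm0]
      have h1 : 0 ≤ ∑ i ∈ B, x i ^ 2 := Finset.sum_nonneg fun i _ => sq_nonneg _
      nlinarith [hsq])
  rw [← above_eq] at hp
  have hab : (above x B (k - 1) : ℝ) ≤ above x R (k - 1) := by
    exact_mod_cast above_mono x hBR (k - 1)
  have hc := hClean R.card O.card (k - 1) hOR
  rw [← hBc] at hc
  have hM0 : (0 : ℝ) < R.card := by
    have : B.card ≤ R.card := Finset.card_le_card hBR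
    have h2 : (B.card : ℝ) ≤ R.card := by exact_mod_cast this
    linarith
  have houtR : (10 : ℝ) * (k * O.card) ≤ 3 * R.card := by exact_mod_cast hout
  rw [hj] at hc
  set C : ℝ := (R.card.choose (k - 1) : ℝ) with hC
  have hC0 : 0 ≤ C := Nat.cast_nonneg _
  have hO0 : (0 : ℝ) ≤ O.card := Nat.cast_nonneg _
  have h1 : (7 / 10 : ℝ) * R.card ≤ (R.card : ℝ) - ((k : ℝ) - 1) * O.card := by nlinarith
  have h2 : (7 / 10 : ℝ) * R.card * C ≤ R.card * (B.card.choose (k - 1) : ℝ) :=
    (mul_le_mul_of_nonneg_right h1 hC0).trans hc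
  have h3 : (7 / 10 : ℝ) * C ≤ (B.card.choose (k - 1) : ℝ) := by
    have h4 : (R.card : ℝ) * (7 / 10 * C) ≤ R.card * (B.card.choose (k - 1) : ℝ) := by
      linarith
    exact le_of_mul_le_mul_left h4 hM0
  have h5 : C ≤ 64 * (above x R (k - 1) : ℝ) := by
    have h6 : ((19 : ℝ) / 20) ^ 2 / ((19 / 20) ^ 2 + 37) = 361 / 15161 := by norm_num
    rw [h6] at hp
    linarith
  rw [hC] at h5
  exact_mod_cast h5

end Pool.Agent.Work.MaxSums.helper74StarDeg
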