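import Pool.Agent.Work.MP_9999b5_ms_helper74.StarDeg

/-!
# MP_9999b5_co: block StarDegS
-/

set_option autoImplicit false

namespace Pool.Agent.Work.MaxSums.helper74StarDegS

open Finset

theorem holds (hPos : PosProb) (hClean : Clean) : StarDegS := by
  intro ι _ R O S x k hT hbig hS hSk hSx
  obtain ⟨hk, hsub, -, -, hge, -, hsq, -, hout⟩ := hT
  have hBc : (R \ O).card = R.card - O.card := Finset.card_sdiff_of_subset hsub
  have hOR : O.card ≤ R.card := Finset.card_le_card hsub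
  set B : Finset ι := R \ O with hB
  have hSR : S ⊆ R := hS.trans Finset.sdiff_subset
  set B' : Finset ι := B \ S with hB'
  have hB'R : B' ⊆ R \ S := Finset.sdiff_subset_sdiff Finset.sdiff_subset (le_refl S)
  have hB'c : B'.card = B.card - k := by
    rw [hB', Finset.card_sdiff_of_subset hS, hSk]
  have hRSc : (R \ S).card = R.card - k := by
    rw [Finset.card_sdiff_of_subset hSR, hSk]
  have hkR : (2 : ℝ) ≤ k := by exact_mod_cast hk
  have hm : (100000 : ℝ) * k ≤ B.card := by exact_mod_cast hbig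
  have hkB : k ≤ B.card := by omega
  have hm' : (B'.card : ℝ) = (B.card : ℝ) - k := by
    rw [hB'c, Nat.cast_sub hkB]
  have hm0 : (0 : ℝ) < B'.card := by rw [hm']; linarith
  have hj : ((k - 1 : ℕ) : ℝ) = (k : ℝ) - 1 := by
    rw [Nat.cast_sub (by omega), Nat.cast_one]
  have hsumB' : ∑ i ∈ B', x i = ∑ i ∈ B, x i - ∑ i ∈ S, x i := by
    rw [hB', ← Finset.sum_sdiff hS]
    ring
  have hsqB' : ∑ i ∈ B', x i ^ 2 ≤ ∑ i ∈ B, x i ^ 2 :=
    Finset.sum_le_sum_of_subset_of_nonneg Finset.sdiff_subset fun _ _ _ => sq_nonneg _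
  have hp := hPos ι B' (k - 1) x 0 1 (1 / 2) 38 (by omega) (by omega) (by norm_num)
    (by norm_num)
    (by
      rw [hj]
      have h1 : ((k : ℝ) - 1) / B'.card ≤ 1 / 99999 := by
        rw [div_le_iff₀ hm0, hm']
        linarith
      have h0 : 0 ≤ ((k : ℝ) - 1) / B'.card := div_nonneg (by linarith) hm0.le
      have h2 : -101 ≤ ∑ i ∈ B', x i := by rw [hsumB']; linarith
      nlinarith)
    (by
      rw [hj]
      simp only [sub_zero]
      rw [div_mul_eq_mul_div, div_le_iff₀ hm0, hm']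
      have h1 : 0 ≤ ∑ i ∈ B', x i ^ 2 := Finset.sum_nonneg fun i _ => sq_nonneg _
      have h2 : ((k : ℝ) - 1) * ∑ i ∈ B', x i ^ 2 ≤ k * ∑ i ∈ B, x i ^ 2 := by nlinarith
      linarith)
  rw [← helper74StarDeg.above_eq] at hp
  have hab : (above x B' (k - 1) : ℝ) ≤ above x (R \ S) (k - 1) := by
    exact_mod_cast helper74StarDeg.above_mono x hB'R (k - 1)
  have hkM : k ≤ R.card - O.card := by omega
  have hc := hClean (R.card - k) O.card (k - 1) (by omega)
  have he : R.card - k - O.card = B'.card := by omega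
  rw [he, hj] at hc
  have hMk : ((R.card - k : ℕ) : ℝ) = (R.card : ℝ) - k := by
    rw [Nat.cast_sub (by omega)]
  have hBR : (B.card : ℝ) ≤ R.card := by
    exact_mod_cast Finset.card_le_card (Finset.sdiff_subset : B ⊆ R)
  have hM0 : (0 : ℝ) < ((R.card - k : ℕ) : ℝ) := by rw [hMk]; linarith
  have houtR : (10 : ℝ) * (k * O.card) ≤ 3 * R.card := by exact_mod_cast hout
  set C : ℝ := ((R.card - k).choose (k - 1) : ℝ) with hC
  have hC0 : 0 ≤ C := Nat.cast_nonneg _
  have hO0 : (0 : ℝ) ≤ O.card := Nat.cast_nonneg _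
  have h1 : (6999 / 10000 : ℝ) * ((R.card - k : ℕ) : ℝ)
      ≤ ((R.card - k : ℕ) : ℝ) - ((k : ℝ) - 1) * O.card := by
    rw [hMk]
    nlinarith
  have h2 : (6999 / 10000 : ℝ) * ((R.card - k : ℕ) : ℝ) * C
      ≤ ((R.card - k : ℕ) : ℝ) * (B'.card.choose (k - 1) : ℝ) :=
    (mul_le_mul_of_nonneg_right h1 hC0).trans hc
  have h3 : (6999 / 10000 : ℝ) * C ≤ (B'.card.choose (k - 1) : ℝ) := by
    have h4 : ((R.card - k : ℕ) : ℝ) * (6999 / 10000 * C)
        ≤ ((R.card - k : ℕ) : ℝ) * (B'.card.choose (k - 1) : ℝ) := by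
      linarith
    exact le_of_mul_le_mul_left h4 hM0
  have h5 : C ≤ 300 * (above x (R \ S) (k - 1) : ℝ) := by
    have h6 : ((1 : ℝ) / 2) ^ 2 / ((1 / 2) ^ 2 + 38) = 1 / 153 := by norm_num
    rw [h6] at hp
    linarith
  rw [hC] at h5
  exact_mod_cast h5

end Pool.Agent.Work.MaxSums.helper74StarDegS
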