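import Pool.Agent.Work.MP_9999b5_ms.Defs

/-!
# MP_9999b5_co: the variance bound used in PosProb and Cheb
-/

set_option autoImplicit false

namespace Pool.Agent.Work.MaxSums.helper74Var

open Finset

theorem var (hLin : SumLin) (hSq : SumSq) (ι : Type) [DecidableEq ι] (A : Finset ι) (j : ℕ)
    (G : ι → ℝ) (hA : 0 < A.card) (hj : j ≤ A.card) :
    ∑ S ∈ A.powersetCard j, (∑ i ∈ S, G i - (j : ℝ) / A.card * ∑ i ∈ A, G i) ^ 2
      ≤ (A.card.choose j : ℝ) * ((j : ℝ) / A.card * ∑ i ∈ A, G i ^ 2) := by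
  have hm : (0 : ℝ) < A.card := by exact_mod_cast hA
  have hN : (0 : ℝ) < (A.card.choose j : ℝ) := by exact_mod_cast Nat.choose_pos hj
  have hlin := hLin ι A j G
  have hsq := hSq ι A j G
  set m : ℝ := (A.card : ℝ) with hmdef
  set N : ℝ := (A.card.choose j : ℝ) with hNdef
  set s1 : ℝ := ∑ i ∈ A, G i with hs1
  set s2 : ℝ := ∑ i ∈ A, G i ^ 2 with hs2
  have hs2n : 0 ≤ s2 := Finset.sum_nonneg fun i _ => sq_nonneg _
  have hcard : ((A.powersetCard j).card : ℝ) = N := by
    rw [Finset.card_powersetCard]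
  have hexp : ∑ S ∈ A.powersetCard j, (∑ i ∈ S, G i - (j : ℝ) / m * s1) ^ 2
      = ∑ S ∈ A.powersetCard j, (∑ i ∈ S, G i) ^ 2
        - 2 * ((j : ℝ) / m * s1) * ∑ S ∈ A.powersetCard j, ∑ i ∈ S, G i
        + N * ((j : ℝ) / m * s1) ^ 2 := by
    have h : ∀ S : Finset ι, (∑ i ∈ S, G i - (j : ℝ) / m * s1) ^ 2
        = (∑ i ∈ S, G i) ^ 2 - 2 * ((j : ℝ) / m * s1) * ∑ i ∈ S, G i
          + ((j : ℝ) / m * s1) ^ 2 := fun S => by ring
    simp only [h]
    rw [Finset.sum_add_distrib, Finset.sum_sub_distrib, ← Finset.mul_sum, Finset.sum_const,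
      nsmul_eq_mul, hcard]
  set Q : ℝ := ∑ S ∈ A.powersetCard j, (∑ i ∈ S, G i) ^ 2 with hQ
  set L : ℝ := ∑ S ∈ A.powersetCard j, ∑ i ∈ S, G i with hL
  have hLval : L = (j : ℝ) / m * N * s1 := by
    field_simp
    linarith [hlin]
  rw [hexp, hLval]
  have hgoal : Q - 2 * ((j : ℝ) / m * s1) * ((j : ℝ) / m * N * s1)
      + N * ((j : ℝ) / m * s1) ^ 2 = Q - N * ((j : ℝ) / m * s1) ^ 2 := by ring
  rw [hgoal]
  have hjR : (0 : ℝ) ≤ j := Nat.cast_nonneg j
  have hjm : (j : ℝ) ≤ m := Nat.cast_le.2 hj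
  by_cases h1 : A.card = 1
  · -- one element
    have hm1 : m = 1 := by rw [hmdef, h1]; norm_num
    obtain ⟨a, ha⟩ := Finset.card_eq_one.1 h1
    have hj01 : j = 0 ∨ j = 1 := by omega
    have hQ' : Q = N * ((j : ℝ) / m * s1) ^ 2 := by
      rcases hj01 with rfl | rfl
      · rw [hQ, Finset.powersetCard_zero]
        simp
      · rw [hQ, hNdef, h1, ha, hm1, hs1, ha]
        have : Finset.powersetCard 1 ({a} : Finset ι) = {{a}} := by
          have h := Finset.powersetCard_self ({a} : Finset ι)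
          rwa [Finset.card_singleton] at h
        rw [this]
        simp
    rw [hQ', sub_self]
    positivity
  · have h2 : 2 ≤ A.card := by omega
    have hm2 : (2 : ℝ) ≤ m := by
      rw [hmdef]
      exact_mod_cast h2
    have hmm : 0 < m * (m - 1) := by nlinarith
    rcases Nat.eq_zero_or_pos j with rfl | hjp
    · have hQ0 : Q = 0 := by
        rw [hQ, Finset.powersetCard_zero]
        simp
      rw [hQ0]
      simp
    have hj1 : (1 : ℝ) ≤ j := by exact_mod_cast hjp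
    -- multiply by `m ^ 2 (m - 1)`
    have hQv : Q = N * ((j : ℝ) * (m - j) * s2 + (j : ℝ) * (j - 1) * s1 ^ 2) / (m * (m - 1)) := by
      rw [eq_div_iff hmm.ne']
      linarith [hsq]
    have key : N * ((j : ℝ) / m * s2) - (Q - N * ((j : ℝ) / m * s1) ^ 2)
        = N * (j : ℝ) / (m * (m - 1)) * ((j - 1) * s2 + (m - j) / m * s1 ^ 2) := by
      rw [hQv]
      have hm0 : m ≠ 0 := hm.ne'
      have hm10 : m - 1 ≠ 0 := by linarith
      field_simp
      ring
    have hnn : 0 ≤ N * (j : ℝ) / (m * (m - 1)) * ((j - 1) * s2 + (m - j) / m * s1 ^ 2) := by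
      apply mul_nonneg
      · positivity
      · apply add_nonneg
        · exact mul_nonneg (by linarith) hs2n
        · exact mul_nonneg (div_nonneg (by linarith) hm.le) (sq_nonneg _)
    linarith

end Pool.Agent.Work.MaxSums.helper74Var
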